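import Pool.Agent.Helper23.MV.StH

/-!
# Project MV: NUM, few zeros
-/

set_option autoImplicit false

namespace Pool.Agent.Helper6.MV

open Pool.Agent.Helper23.MV
open Finset

/-- grouping of zeros into boxes -/
private theorem group_NUM (Z : Finset ℂ) (g : ℂ → ℝ) (w B D : ℝ) (m : ℕ) (hw : 0 < w)
    (hm : 1 ≤ ((m : ℝ) - 1) * w) (hB : 0 ≤ B) (hD : 0 ≤ D)
    (h1 : ∀ F : Finset ℂ, F ⊆ Z → (∀ ρ ∈ F, ∀ ρ' ∈ F, ρ ≠ ρ' → 1 ≤ |ρ.im - ρ'.im|) →
      (F.card : ℝ) ≤ B)
    (h2 : ∀ ρ₀ ∈ Z, ∀ S : Finset ℂ, S ⊆ Z → (∀ ρ ∈ S, |ρ.im - ρ₀.im| ≤ w) → ∑ ρ ∈ S, g ρ ≤ D) :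
    ∑ ρ ∈ Z, g ρ ≤ m * B * D := by
  classical
  have hm0 : 0 < m := by
    rcases Nat.eq_zero_or_pos m with h | h
    · subst h
      have : ((0 : ℕ) : ℝ) - 1 = -1 := by norm_num
      rw [this] at hm
      linarith
    · exact h
  set k : ℂ → ℤ := fun ρ => ⌊ρ.im / w⌋ with hk
  have hex : ∀ j ∈ Z.image k, ∃ ρ ∈ Z, k ρ = j := fun j hj => by
    simpa using hj
  choose! s hsZ hsk using hex
  have hbox : ∀ ρ ρ' : ℂ, k ρ = k ρ' → |ρ.im - ρ'.im| ≤ w := by
    intro ρ ρ' h
    have a1 := Int.floor_le (ρ.im / w)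
    have a2 := Int.lt_floor_add_one (ρ.im / w)
    have b1 := Int.floor_le (ρ'.im / w)
    have b2 := Int.lt_floor_add_one (ρ'.im / w)
    have h' : ((⌊ρ.im / w⌋ : ℤ) : ℝ) = ((⌊ρ'.im / w⌋ : ℤ) : ℝ) := by exact_mod_cast h
    rw [abs_le]
    have e1 : ρ.im / w - ρ'.im / w ≤ 1 := by linarith
    have e2 : -1 ≤ ρ.im / w - ρ'.im / w := by linarith
    have e3 : ρ.im - ρ'.im = (ρ.im / w - ρ'.im / w) * w := by field_simp
    rw [e3]
    constructor <;> nlinarith
  have hsum : ∑ ρ ∈ Z, g ρ = ∑ j ∈ Z.image k, ∑ ρ ∈ Z.filter (fun ρ => k ρ = j), g ρ :=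
    (Finset.sum_fiberwise_of_maps_to (fun ρ hρ => Finset.mem_image_of_mem k hρ) g).symm
  have hin : ∀ j ∈ Z.image k, ∑ ρ ∈ Z.filter (fun ρ => k ρ = j), g ρ ≤ D := by
    intro j hj
    apply h2 (s j) (hsZ j hj) _ (Finset.filter_subset _ _)
    intro ρ hρ
    rw [Finset.mem_filter] at hρ
    apply hbox
    rw [hρ.2, hsk j hj]
  have hcard : ((Z.image k).card : ℝ) ≤ m * B := by
    have e1 : (Z.image k).card =
        ∑ r ∈ Finset.range m, ((Z.image k).filter (fun j : ℤ => (j % (m : ℤ)).toNat = r)).card := by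
      apply Finset.card_eq_sum_card_fiberwise
      intro j _
      have hmz : (0 : ℤ) < m := by exact_mod_cast hm0
      have a1 := Int.emod_nonneg j hmz.ne'
      have a2 := Int.emod_lt_of_pos j hmz
      show (j % (m : ℤ)).toNat ∈ (Finset.range m : Set ℕ)
      simp only [Finset.coe_range, Set.mem_Iio]
      omega
    rw [e1]
    push_cast
    have e2 : ∀ r ∈ Finset.range m,
        (((Z.image k).filter (fun j : ℤ => (j % (m : ℤ)).toNat = r)).card : ℝ) ≤ B := by
      intro r _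
      have hinj : Set.InjOn s (((Z.image k).filter (fun j : ℤ => (j % (m : ℤ)).toNat = r) : Finset ℤ) : Set ℤ) := by
        intro j hj j' hj' h
        rw [Finset.mem_coe, Finset.mem_filter] at hj hj'
        rw [← hsk j hj.1, ← hsk j' hj'.1, h]
      rw [← Finset.card_image_of_injOn hinj]
      apply h1
      · intro ρ hρ
        rw [Finset.mem_image] at hρ
        obtain ⟨j, hj, rfl⟩ := hρ
        exact hsZ j (Finset.mem_filter.1 hj).1
      · intro ρ hρ ρ' hρ' hne
        rw [Finset.mem_image] at hρ hρ'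
        obtain ⟨j, hj, rfl⟩ := hρ
        obtain ⟨j', hj', rfl⟩ := hρ'
        rw [Finset.mem_filter] at hj hj'
        have hjj : j ≠ j' := fun h => hne (by rw [h])
        have hmz : (0 : ℤ) < m := by exact_mod_cast hm0
        have hmod : j % m = j' % m := by
          have a1 := Int.emod_nonneg j hmz.ne'
          have a2 := Int.emod_nonneg j' hmz.ne'
          have := hj.2
          have := hj'.2
          omega
        have hdvd : (m : ℤ) ∣ j - j' := Int.ModEq.dvd (show j' ≡ j [ZMOD m] from hmod.symm)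
        have habs : (m : ℤ) ≤ |j - j'| := by
          apply Int.le_of_dvd (abs_pos.2 (sub_ne_zero.2 hjj))
          exact (dvd_abs _ _).2 hdvd
        have habs' : (m : ℝ) ≤ |(j : ℝ) - j'| := by
          have : ((m : ℤ) : ℝ) ≤ ((|j - j'| : ℤ) : ℝ) := by exact_mod_cast habs
          push_cast at this
          exact this
        have k1 : ⌊(s j).im / w⌋ = j := hsk j hj.1
        have k2 : ⌊(s j').im / w⌋ = j' := hsk j' hj'.1
        have a1 := Int.floor_le ((s j).im / w)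
        have a2 := Int.lt_floor_add_one ((s j).im / w)
        have b1 := Int.floor_le ((s j').im / w)
        have b2 := Int.lt_floor_add_one ((s j').im / w)
        rw [k1] at a1 a2
        rw [k2] at b1 b2
        have e3 : (s j).im - (s j').im = ((s j).im / w - (s j').im / w) * w := by field_simp
        rw [e3, abs_mul, abs_of_pos hw]
        have e4 : (m : ℝ) - 1 ≤ |(s j).im / w - (s j').im / w| := by
          rcases le_abs.1 habs' with h | h
          · exact le_trans (by linarith) (le_abs_self _)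
          · exact le_trans (by linarith) (neg_le_abs _)
        have := mul_le_mul_of_nonneg_right e4 hw.le
        linarith
    calc ∑ r ∈ Finset.range m, (((Z.image k).filter (fun j : ℤ => (j % (m : ℤ)).toNat = r)).card : ℝ)
        ≤ ∑ r ∈ Finset.range m, B := Finset.sum_le_sum e2
      _ = m * B := by simp
  calc ∑ ρ ∈ Z, g ρ = ∑ j ∈ Z.image k, ∑ ρ ∈ Z.filter (fun ρ => k ρ = j), g ρ := hsum
    _ ≤ ∑ j ∈ Z.image k, D := Finset.sum_le_sum hin
    _ = ((Z.image k).card : ℝ) * D := by simp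
    _ ≤ m * B * D := mul_le_mul_of_nonneg_right hcard hD

private theorem zeta_NUM (c : PCh) (h : c.χ = 1) (s : ℂ) : c.L s = riemannZeta s := by
  obtain ⟨r, hr, χ, prim⟩ := c
  have h' : χ = (1 : DirichletCharacter ℂ r) := h
  clear h
  subst h'
  have h1 : r = 1 := by
    haveI : NeZero r := ⟨hr⟩
    rw [DirichletCharacter.isPrimitive_def, DirichletCharacter.conductor_one] at prim
    exact prim.symm
  subst h1
  unfold PCh.L
  exact congrFun DirichletCharacter.LFunction_modOne_eq s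

theorem hNum (hFin : StFin) (hZct : StZct) (hLfd : StLfd) (hZtd : StZtd) (hZlw : StZlw) :
    StNum := by
  obtain ⟨-, hF1, hF2⟩ := hFin
  obtain ⟨A, cZ, XZ, hA, hcZ0, hcZ8, hXZ, HZ⟩ := hZct
  obtain ⟨cl, hcl0, hcl8, HW⟩ := hZlw
  obtain ⟨cL, CL, XL, hcL0, hcLκ, hCL, hXL, HL⟩ := hLfd (1 / 10000) (by norm_num) (by norm_num)
  obtain ⟨cT, CT, XT, hcT0, hcTκ, hCT, hXT, HT⟩ := hZtd (1 / 10000) (by norm_num) (by norm_num)
  refine ⟨min (cZ / 4) (min (cl / 2) (min (cL / 2) (min (cT / 2) (1 / 100)))), ?_, ?_, ?_⟩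
  · refine lt_min (by linarith) (lt_min (by linarith) (lt_min (by linarith) (lt_min (by linarith)
      (by norm_num))))
  · exact (min_le_right _ _).trans ((min_le_right _ _).trans ((min_le_right _ _).trans
      (min_le_right _ _)))
  intro η hη0 hη
  have hη1 : η ≤ cZ / 4 := hη.trans (min_le_left _ _)
  have hη2 : η ≤ cl / 2 := hη.trans ((min_le_right _ _).trans (min_le_left _ _))
  have hη3 : η ≤ cL / 2 := hη.trans ((min_le_right _ _).trans ((min_le_right _ _).trans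
    (min_le_left _ _)))
  have hη4 : η ≤ cT / 2 := hη.trans ((min_le_right _ _).trans ((min_le_right _ _).trans
    ((min_le_right _ _).trans (min_le_left _ _))))
  have hη5 : η ≤ 1 / 100 := hη.trans ((min_le_right _ _).trans ((min_le_right _ _).trans
      ((min_le_right _ _).trans (min_le_right _ _))))
  set w : ℝ := cZ / 2 with hwdef
  have hw : 0 < w := by positivity
  set m : ℕ := ⌈1 / w⌉₊ + 1 with hmdef
  have hm : 1 ≤ ((m : ℝ) - 1) * w := by
    have h1 : 1 / w ≤ (⌈1 / w⌉₊ : ℝ) := Nat.le_ceil _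
    have h2 : (m : ℝ) - 1 = (⌈1 / w⌉₊ : ℝ) := by
      rw [hmdef]; push_cast; ring
    rw [h2]
    rw [div_le_iff₀ hw] at h1
    exact h1
  set C : ℝ := max CL CT with hC
  have hC1 : 1 ≤ C := hCL.trans (le_max_left _ _)
  set K : ℝ := m * C * A * 2 with hKdef
  have hm1 : (1 : ℝ) ≤ m := by
    rw [hmdef]; push_cast
    have : (0 : ℝ) ≤ (⌈1 / w⌉₊ : ℝ) := Nat.cast_nonneg _
    linarith
  have hK : 0 < K := by positivity
  have hlim : ∀ᶠ x : ℝ in Filter.atTop, K * Real.log x ^ 7 ≤ x ^ (η / 50 - η / 250) := by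
    have h1 := isLittleO_log_rpow_rpow_atTop (s := η / 50 - η / 250) 7 (by linarith)
    have h2 := h1.bound (show (0 : ℝ) < 1 / K by positivity)
    filter_upwards [h2, Filter.eventually_ge_atTop (1 : ℝ)] with x hx hx1
    have h3 : 0 ≤ Real.log x := Real.log_nonneg hx1
    have h4 : (0 : ℝ) ≤ x ^ (η / 50 - η / 250) := Real.rpow_nonneg (by linarith) _
    rw [Real.norm_of_nonneg (Real.rpow_nonneg h3 _), Real.norm_of_nonneg h4] at hx
    have h5 : Real.log x ^ (7 : ℝ) = Real.log x ^ 7 := by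
      exact_mod_cast Real.rpow_natCast (Real.log x) 7
    rw [h5] at hx
    calc K * Real.log x ^ 7 ≤ K * (1 / K * x ^ (η / 50 - η / 250)) :=
          mul_le_mul_of_nonneg_left hx hK.le
      _ = x ^ (η / 50 - η / 250) := by field_simp
  rw [Filter.eventually_atTop] at hlim
  obtain ⟨X1, hX1⟩ := hlim
  refine ⟨max X1 (max XZ (max XL (max XT (max 3 (Real.exp (1 / cZ)))))), ?_, ?_⟩
  · exact hXZ.trans ((le_max_left _ _).trans (le_max_right _ _))
  intro X c hX hr
  have hXX1 : X1 ≤ X := (le_max_left _ _).trans hX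
  have hXXZ : XZ ≤ X := ((le_max_left _ _).trans (le_max_right _ _)).trans hX
  have hXXL : XL ≤ X := ((le_max_left _ _).trans ((le_max_right _ _).trans (le_max_right _ _))).trans hX
  have hXXT : XT ≤ X := ((le_max_left _ _).trans ((le_max_right _ _).trans ((le_max_right _ _).trans
    (le_max_right _ _)))).trans hX
  have hX3 : 3 ≤ X := ((le_max_left _ _).trans ((le_max_right _ _).trans ((le_max_right _ _).trans
    ((le_max_right _ _).trans (le_max_right _ _))))).trans hX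
  have hXe : Real.exp (1 / cZ) ≤ X := ((le_max_right _ _).trans ((le_max_right _ _).trans
    ((le_max_right _ _).trans ((le_max_right _ _).trans (le_max_right _ _))))).trans hX
  have hX0 : 0 < X := by linarith
  have hXone : 1 ≤ X := by linarith
  have hL1 : 1 ≤ Real.log X := by
    rw [Real.le_log_iff_exp_le hX0]
    have := Real.exp_one_lt_d9
    linarith
  have hLc : 1 / cZ ≤ Real.log X := by
    rw [Real.le_log_iff_exp_le hX0]
    exact hXe
  have hLc' : 1 / Real.log X ≤ cZ := by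
    rw [div_le_iff₀ (by linarith)]
    rw [div_le_iff₀ hcZ0] at hLc
    linarith
  have hmem : ∀ ρ ∈ ZF c (2 * η) X, c.L ρ = 0 ∧ 1 - 2 * η ≤ ρ.re ∧ |ρ.im| ≤ X ∧ ρ.re < 1 := by
    intro ρ hρ
    have h1 := (hF1 c (2 * η) X ρ (by linarith)).1 hρ
    exact ⟨h1.1, h1.2.1, h1.2.2, (hF2 c ρ h1.1 (by linarith [h1.2.1])).1⟩
  have hhigh : c.χ = 1 → ∀ ρ ∈ ZF c (2 * η) X, 2 ≤ |ρ.im| := by
    intro hχ ρ hρ
    by_contra hlt
    push Not at hlt
    obtain ⟨h1, h2, -, h4⟩ := hmem ρ hρ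
    rw [zeta_NUM c hχ] at h1
    refine HW ρ (by linarith) (by linarith) ?_ h1
    intro h5
    rw [h5] at h4
    simp at h4
  have hrZ : (c.r : ℝ) ≤ X ^ cZ := hr.trans (Real.rpow_le_rpow_of_exponent_le hXone (by linarith))
  have hrL : (c.r : ℝ) ≤ X ^ cL := hr.trans (Real.rpow_le_rpow_of_exponent_le hXone (by linarith))
  have hexp : (20 : ℝ) * (1 / 10000) * (2 * η) = η / 250 := by ring
  have hXp : (0 : ℝ) < X ^ (η / 250) := Real.rpow_pos_of_pos hX0 _
  have hB : ∀ F : Finset ℂ, F ⊆ ZF c (2 * η) X →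
      (∀ ρ ∈ F, ∀ ρ' ∈ F, ρ ≠ ρ' → 1 ≤ |ρ.im - ρ'.im|) →
      (F.card : ℝ) ≤ C * X ^ (η / 250) * Real.log X ^ 6 := by
    intro F hF hsep
    by_cases hχ : c.χ = 1
    · have h1 := HT X (2 * η) F hXXT (by linarith) (by linarith) (by
        intro ρ hρ
        obtain ⟨h1, h2, h3, h4⟩ := hmem ρ (hF hρ)
        rw [zeta_NUM c hχ] at h1
        exact ⟨h1, h2, h4.le, hhigh hχ ρ (hF hρ), h3⟩) hsep
      rw [hexp] at h1
      refine h1.trans ?_
      have : CT ≤ C := le_max_right _ _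
      have h6 : (0 : ℝ) ≤ Real.log X ^ 6 := by positivity
      exact mul_le_mul_of_nonneg_right (mul_le_mul_of_nonneg_right this hXp.le) h6
    · set F' : Finset (PCh × ℂ) := F.map ⟨fun ρ => (c, ρ), fun ρ ρ' h => (Prod.mk.inj h).2⟩ with hF'
      have hm' : ∀ v ∈ F', v.1 = c ∧ v.2 ∈ F := by
        intro v hv
        rw [hF', Finset.mem_map] at hv
        obtain ⟨ρ, hρ, rfl⟩ := hv
        exact ⟨rfl, hρ⟩
      have h1 := HL X (2 * η) F' hXXL (by linarith) (by linarith) (by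
        intro v hv
        obtain ⟨hv1, hv2⟩ := hm' v hv
        obtain ⟨h1, h2, h3, h4⟩ := hmem v.2 (hF hv2)
        rw [hv1]
        exact ⟨hrL, hχ, h1, h2, h3⟩) (by
        intro v hv v' hv' hne h11
        obtain ⟨hv1, hv2⟩ := hm' v hv
        obtain ⟨hv1', hv2'⟩ := hm' v' hv'
        have hne2 : v.2 ≠ v'.2 := fun h => hne (Prod.ext h11 h)
        have h2 := hsep v.2 hv2 v'.2 hv2' hne2
        refine le_trans ?_ h2
        rw [div_le_one (by linarith)]
        exact hL1)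
      rw [hexp, hF', Finset.card_map] at h1
      refine h1.trans ?_
      have hle : CL ≤ C := le_max_left _ _
      have h6 : (1 : ℝ) ≤ Real.log X ^ 6 := one_le_pow₀ hL1
      calc CL * X ^ (η / 250) ≤ C * X ^ (η / 250) := mul_le_mul_of_nonneg_right hle hXp.le
        _ = C * X ^ (η / 250) * 1 := (mul_one _).symm
        _ ≤ C * X ^ (η / 250) * Real.log X ^ 6 :=
          mul_le_mul_of_nonneg_left h6 (by positivity)
  have hD : ∀ ρ₀ ∈ ZF c (2 * η) X, ∀ S : Finset ℂ, S ⊆ ZF c (2 * η) X →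
      (∀ ρ ∈ S, |ρ.im - ρ₀.im| ≤ w) → ∑ ρ ∈ S, (mz c ρ : ℝ) ≤ A * (1 + cZ * Real.log X) := by
    intro ρ₀ hρ₀ S hS hclose
    obtain ⟨h1, h2, h3, h4⟩ := hmem ρ₀ hρ₀
    apply HZ X c ρ₀.im cZ S hXXZ hrZ h3 (fun hχ => hhigh hχ ρ₀ hρ₀) hLc' le_rfl
    intro ρ hρ
    obtain ⟨g1, g2, g3, g4⟩ := hmem ρ (hS hρ)
    refine ⟨g1, ?_⟩
    have e1 : ‖ρ - (1 + (ρ₀.im : ℂ) * Complex.I)‖ ≤
        |(ρ - (1 + (ρ₀.im : ℂ) * Complex.I)).re| + |(ρ - (1 + (ρ₀.im : ℂ) * Complex.I)).im| :=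
      Complex.norm_le_abs_re_add_abs_im _
    have e2 : (ρ - (1 + (ρ₀.im : ℂ) * Complex.I)).re = ρ.re - 1 := by simp
    have e3 : (ρ - (1 + (ρ₀.im : ℂ) * Complex.I)).im = ρ.im - ρ₀.im := by simp
    rw [e2, e3] at e1
    have e4 : |ρ.re - 1| ≤ 2 * η := by
      rw [abs_le]; constructor <;> linarith
    have e5 := hclose ρ hρ
    have : 2 * η ≤ cZ / 2 := by linarith
    linarith
  have hfin := group_NUM (ZF c (2 * η) X) (fun ρ => (mz c ρ : ℝ)) w
    (C * X ^ (η / 250) * Real.log X ^ 6) (A * (1 + cZ * Real.log X)) m hw hm (by positivity)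
    (by positivity) hB hD
  refine hfin.trans ?_
  have hlog7 := hX1 X hXX1
  have hc1 : 1 + cZ * Real.log X ≤ 2 * Real.log X := by nlinarith
  calc (m : ℝ) * (C * X ^ (η / 250) * Real.log X ^ 6) * (A * (1 + cZ * Real.log X))
      ≤ (m : ℝ) * (C * X ^ (η / 250) * Real.log X ^ 6) * (A * (2 * Real.log X)) := by
        apply mul_le_mul_of_nonneg_left _ (by positivity)
        exact mul_le_mul_of_nonneg_left hc1 (by linarith)
    _ = (K * Real.log X ^ 7) * X ^ (η / 250) := by rw [hKdef]; ring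
    _ ≤ X ^ (η / 50 - η / 250) * X ^ (η / 250) := mul_le_mul_of_nonneg_right hlog7 hXp.le
    _ = X ^ (η / 50) := by rw [← Real.rpow_add hX0]; congr 1; ring

end Pool.Agent.Helper6.MV
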