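import Pool.Agent.Helper23.MV.StE

/-!
# Project MV: ZLW, `ζ` has no zeros near the line `σ = 1` at small heights
-/

set_option autoImplicit false

namespace Pool.Agent.Helper6.MV

open Pool.Agent.Helper23.MV
open Filter Topology

/-- `(s - 1) ζ(s)` with the value `1` at `1` -/
private noncomputable def gZLW (s : ℂ) : ℂ :=
  Function.update (fun s : ℂ => (s - 1) * riemannZeta s) 1 1 s

private theorem cont_gZLW : Continuous gZLW := by
  rw [continuous_iff_continuousAt]
  intro s
  by_cases hs : s = 1
  · subst hs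
    have h : ContinuousAt (Function.update (fun s : ℂ => (s - 1) * riemannZeta s) 1 1) 1 :=
      continuousAt_update_same.2 riemannZeta_residue_one
    exact h
  · have h : ContinuousAt (Function.update (fun s : ℂ => (s - 1) * riemannZeta s) 1 1) s := by
      rw [continuousAt_update_of_ne hs]
      exact (continuousAt_id.sub continuousAt_const).mul (differentiableAt_riemannZeta hs).continuousAt
    exact h

private theorem gZLW_ne {s : ℂ} (h : 1 ≤ s.re) : gZLW s ≠ 0 := by
  by_cases hs : s = 1
  · subst hs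
    simp [gZLW]
  · have h1 : gZLW s = (s - 1) * riemannZeta s := by
      simp [gZLW, Function.update_of_ne hs]
    rw [h1]
    exact mul_ne_zero (sub_ne_zero.2 hs) (riemannZeta_ne_zero_of_one_le_re h)

theorem hZlw : StZlw := by
  set K : Set ℂ := ((Set.Icc (7 / 8 : ℝ) 1) ×ℂ (Set.Icc (-20 : ℝ) 20)) ∩ gZLW ⁻¹' {0} with hK
  have hKc : IsCompact K := by
    apply IsCompact.inter_right
    · exact isCompact_Icc.reProdIm isCompact_Icc
    · exact isClosed_singleton.preimage cont_gZLW
  have key : ∀ s : ℂ, 7 / 8 ≤ s.re → |s.im| ≤ 20 → s ≠ 1 → riemannZeta s = 0 → s ∈ K := by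
    intro s h1 h2 h3 h4
    have h5 : s.re ≤ 1 := by
      by_contra h6
      push Not at h6
      exact riemannZeta_ne_zero_of_one_le_re h6.le h4
    refine ⟨⟨⟨h1, h5⟩, abs_le.1 h2⟩, ?_⟩
    show gZLW s = 0
    simp [gZLW, Function.update_of_ne h3, h4]
  by_cases hne : K.Nonempty
  · obtain ⟨z, hz, hmax⟩ := hKc.exists_isMaxOn hne Complex.continuous_re.continuousOn
    have hz1 : z.re < 1 := by
      by_contra h
      push Not at h
      exact gZLW_ne h hz.2
    refine ⟨min (1 / 8) ((1 - z.re) / 2), lt_min (by norm_num) (by linarith), min_le_left _ _, ?_⟩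
    intro s h1 h2 h3 h4
    have h5 : min (1 / 8 : ℝ) ((1 - z.re) / 2) ≤ 1 / 8 := min_le_left _ _
    have h6 : min (1 / 8 : ℝ) ((1 - z.re) / 2) ≤ (1 - z.re) / 2 := min_le_right _ _
    have h7 := hmax (key s (by linarith) h2 h3 h4)
    have h8 : s.re ≤ z.re := h7
    linarith
  · refine ⟨1 / 8, by norm_num, le_refl _, ?_⟩
    intro s h1 h2 h3 h4
    exact hne ⟨s, key s (by linarith) h2 h3 h4⟩

end Pool.Agent.Helper6.MV
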